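import Pool.Agent.W_448j6_h22.KbK
import Pool.Agent.W_448t8_h97.TI

/-!
MP_448cb3_co, G2, case B, window `j`: the values of the rows with the patterns [DL] and R (three and
four sites) at the window `j`, in a form which serves every functional.  helper10.
-/

namespace Pool.Agent.GaussPoset.Win.W4

set_option linter.unusedSectionVars false

open Finset
open Pool.Agent.GaussPoset.Win.SO (PN vp con on mem_PN vp_PD vp_PU)

universe u

variable {P : Type u} [Fintype P] [PartialOrder P] [DecidableEq P] {r i : ℕ}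
variable {psi : P → P} {C K : Finset P} {w v : P} {m : ℕ} {x : ℕ → P}

/-- [DL], four sites, no upper pendant over the last double -/
theorem DLg.L_low3 (h : DLg r i K psi C w v m x) (hm3 : m = 3) (hU : UE i C x 2 = ∅) :
    ∃ n : ℕ, n ≤ 2 ∧ (DE i C x 2).card = n ∧ wv i C = n - 1 ∧
      10 + 4 * ((pen (x 2)).card : ℤ) + (n : ℤ) ^ 2 - 5 * n -
        2 * n * ((uc (x 3)).card + 2 * (pen (x 2)).card + (pen (x 3)).card) ≤ Lv i C := by
  have g4 := card_le_card (T4_subset i C)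
  have g5 := sq_add_nonneg (NE i C x 0 + (uc (x 0)).card - 1 - (pen (x 2)).card)
  have e2 : NE i C x 2 = ((DE i C x 2).card : ℤ) := by
    unfold NE
    rw [hU, card_empty]
    push_cast
    ring
  have hz : (0 : ℤ) ≤ (Z4 i C).card - (T4 i C).card := by
    have : ((T4 i C).card : ℤ) ≤ (Z4 i C).card := by exact_mod_cast g4
    linarith
  have e3 := h.L_form3 hm3
  have e4 := h.w3_eq
  rw [e2] at e3 e4
  rcases h.CH2_num with ⟨d, c⟩ | ⟨d, c⟩ | ⟨d, c⟩
  · refine ⟨0, by omega, d, by rw [e4, d], ?_⟩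
    rw [e3, d]
    push_cast
    linarith
  · refine ⟨1, by omega, d, by rw [e4, d], ?_⟩
    rw [e3, d]
    push_cast
    linarith
  · refine ⟨2, by omega, d, by rw [e4, d], ?_⟩
    rw [e3, d]
    push_cast
    linarith

/-- the lower bound of the value of a row R -/
def Rlow (n0 n1 n2 u2 n3 p0 p1 : ℤ) : ℤ :=
  (n1 + n2 + n3 - n0 - u2) + (n1 + n2 + n3 - n0 - u2) ^ 2 + 2 * n0 * (n2 - u2) -
    2 * n1 * n3 - 2 * p1 * (n1 + n2 + n3 - n0 - u2) + (p1 ^ 2 - p1) + 2 + 2 * p0 -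
    4 * n1 + n2 * (n2 - 1) + 2 * (n0 + u2 + n1 + n3 - n2) -
    (n1 - n2 + u2 - 1) * (4 + 2 * p0 + 2 * p1)

/-- R, four sites -/
theorem Rg.L_low (h : Rg r i K psi C w v x) (hU : ∀ z ∈ UE i C x 2, ch i C z ≤ 0) :
    ∃ n0 n1 n2 u2 n3 : ℕ, (DE i C x 1).card = n1 ∧ (DE i C x 2).card = n2 ∧
      (DE i C x 3).card = n3 ∧ (UE i C x 0).card = n0 ∧ (UE i C x 2).card = u2 ∧
      n1 ≤ 2 ∧ n2 ≤ 2 ∧ n0 + u2 ≤ 1 ∧ wv i C = n1 - n2 + u2 - 1 ∧
      Rlow n0 n1 n2 u2 n3 (pen (x 0)).card (pen (x 1)).card ≤ Lv i C := by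
  classical
  have W := h.W
  have e0 := h.NE0
  have e1 := h.NE1
  have e3 := h.NE3
  have c1 : CH i C x 1 ≤ ∑ a ∈ DE i C x 1, (2 * ((pen a).card : ℤ)) +
      (DE i C x 1).card * ((DE i C x 1).card - 1) := by
    rw [W.CH_split, W.sum_DE (by omega) h.dcv12, h.UE1, sum_empty, add_zero]
  rw [← mul_sum] at c1
  obtain ⟨b1, b2⟩ := W.sum_pen_le (k := 1) (by omega) h.dcv12
  obtain ⟨b3, -⟩ := W.sum_pen_le (k := 2) (by omega) h.dcv23
  have c2 : ((DE i C x 2).card : ℤ) * ((DE i C x 2).card - 1) ≤ CH i C x 2 := by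
    rw [W.CH_split, W.sum_DE (by omega) h.dcv23]
    have g1 : 0 ≤ ∑ a ∈ DE i C x 2, (2 * ((pen a).card : ℤ)) :=
      sum_nonneg fun a _ => by positivity
    have g2 : 0 ≤ ∑ z ∈ UE i C x 2, vp i z * ch i C z := by
      refine sum_nonneg fun z hz => ?_
      rw [vp_PU (mem_UE.1 hz).2.1]
      have := hU z hz
      linarith
    linarith
  have c1' : CH i C x 1 ≤ 4 * ((DE i C x 1).card : ℤ) := by
    have h3 : (DE i C x 1).card = 0 ∨ (DE i C x 1).card = 1 ∨ (DE i C x 1).card = 2 := by omega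
    rcases h3 with h3 | h3 | h3 <;> rw [h3] at b2 c1 ⊢ <;> norm_num at b2 c1 ⊢ <;> linarith
  have u02 := W.ue_sum (i := i) (C := C) 0 2 (by omega) (by omega) (by omega)
  have h9 := card_le_card (T4_subset i C)
  have h9' : ((T4 i C).card : ℤ) ≤ (Z4 i C).card := by exact_mod_cast h9
  have e2 : NE i C x 2 = ((DE i C x 2).card : ℤ) - (UE i C x 2).card := rfl
  refine ⟨_, _, _, _, _, rfl, rfl, rfl, rfl, rfl, b1, b3, u02, ?_, ?_⟩
  · rw [h.w3_eq, e1, e2]
    ring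
  · rw [h.L_form, e0, e1, e2, e3]
    unfold Rlow
    nlinarith

end Pool.Agent.GaussPoset.Win.W4

namespace Pool.Agent.GaussPoset.EK

set_option linter.unusedSectionVars false

open Finset Win St Wd Win.W4

universe u

variable {P : Type u} [Fintype P] [PartialOrder P] [DecidableEq P] {r i j : ℕ}
variable {m : ℕ} {x : ℕ → P} {c : ℕ → ℤ} {β : ℤ} {t : Tops P}
variable {K : Finset P} {psi : P → P}

lemma F24_eq (j : ℕ) (t : Tops P) : Pn.F2 j t + Pn.F4 j t =
    Lv j (cext (j + 1) (topOf : P → Tops P) t) := rfl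

lemma F3_eq (j : ℕ) (t : Tops P) : Pn.F3 j t =
    wv j (cext (j + 1) (topOf : P → Tops P) t) := rfl

/-- the value at the energy six of a small row -/
lemma NJ.F6_small (h : NJ P r j) (hj : 2 ≤ j) (R : Red P j K psi)
    (hs : Small j (topOf : P → Tops P) t) :
    Pn.F6 j t = wv j (cext (j + 1) (topOf : P → Tops P) t) ^ 2 := by
  have hjr : j ≤ r := by have := h.hr; omega
  have h2 := (K2.PG_star h.g.H hjr (NJ.noQ h hj) (fun m hm => h.g.good m (by omega)) h.split R.mat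
      R.sub (K2.star_small h.g.H hjr h.split R hs)).2
  unfold Pn.F6
  rw [h2]
  unfold wv I2.bb I2.VV
  ring

section rows

variable (h : NJ P r j) (hj : 2 ≤ j)
include h hj

/-- rows with three sites are small -/
lemma NJ.small_two (B : RowB P j t 2 x c β) : Small j (topOf : P → Tops P) t := by
  rcases B.small h.g.H h.split with h2 | h2
  · exact h2
  · have := h2.1
    omega

/-- [DL] with three sites -/
theorem NJ.val_dl2 (B : RowB P j t 2 x c β) (hβ : β = 0) (c0 : c 0 = 1) (c1 : c 1 = -1) :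
    Pn.F3 j t = -1 ∧ Pn.F6 j t = 1 ∧
      4 + 2 * ((pen (x 2)).card : ℤ) ≤ Pn.F2 j t + Pn.F4 j t := by
  obtain ⟨K, psi, R⟩ := exists_red P j
  obtain ⟨w, v, D⟩ := NJ.dl2 h hj R B hβ c0 c1
  have W := D.W
  have n02 : x 0 ≠ x 2 := W.ne (by omega) (by omega) (by omega)
  have n01 : x 0 ≠ x 1 := W.ne (by omega) (by omega) (by omega)
  have n12 : x 1 ≠ x 2 := W.ne (by omega) (by omega) (by omega)
  have h3 := D.Q.three_w3 D.hw D.hv n01 n12 n02 W.st_three
  have h6 := NJ.F6_small h hj R (NJ.small_two h hj B)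
  have hT := D.T_ge
  rw [F24_eq, F3_eq, h6, h3]
  unfold W4.Tv at hT
  rw [h3] at hT
  refine ⟨rfl, by norm_num, ?_⟩
  linarith

/-- R with three sites -/
theorem NJ.val_r2 (B : RowB P j t 2 x c β) (hβ : β = 1) (c0 : c 0 = -1) (c1 : c 1 = 0) :
    Pn.F3 j t = -1 ∧ Pn.F6 j t = 1 ∧
      4 + 2 * ((pen (x 1)).card : ℤ) ≤ Pn.F2 j t + Pn.F4 j t := by
  obtain ⟨K, psi, R⟩ := exists_red P j
  obtain ⟨w, v, D⟩ := NJ.r2 h hj R B hβ c0 c1
  have W := D.W
  have n02 : x 0 ≠ x 2 := W.ne (by omega) (by omega) (by omega)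
  have n01 : x 0 ≠ x 1 := W.ne (by omega) (by omega) (by omega)
  have n12 : x 1 ≠ x 2 := W.ne (by omega) (by omega) (by omega)
  have hst : st j (cext (j + 1) (topOf : P → Tops P) t) = {x 2, x 0, x 1} := by
    rw [W.st_three]
    ext y
    simp only [mem_insert, mem_singleton]
    tauto
  have h3 := D.Q.three_w3 D.hw D.hv (Ne.symm n02) n01 (Ne.symm n12) hst
  have h6 := NJ.F6_small h hj R (NJ.small_two h hj B)
  have hT := D.T_ge
  rw [F24_eq, F3_eq, h6, h3]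
  unfold W4.Tv at hT
  rw [h3] at hT
  refine ⟨rfl, by norm_num, ?_⟩
  linarith

/-- [DL] with at least four sites is small -/
lemma NJ.small_dl (B : RowB P j t m x c β) (c2 : ∀ k, 2 ≤ k → k < m → c k = 0) :
    Small j (topOf : P → Tops P) t := by
  rcases B.small h.g.H h.split with h2 | h2
  · exact h2
  · exfalso
    obtain ⟨h3, -, -, -, h4, -⟩ := h2
    rw [c2 (m - 2) (by omega) (by omega)] at h4
    norm_num at h4

/-- [DL] with four sites, no upper pendant over the last double -/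
theorem NJ.val_d3 (B : RowB P j t 3 x c β) (hβ : β = 0) (c0 : c 0 = 1) (c1 : c 1 = -1)
    (c2 : c 2 = 0) (hU : UE j (cext (j + 1) (topOf : P → Tops P) t) x 2 = ∅) :
    ∃ n : ℕ, n ≤ 2 ∧ (DE j (cext (j + 1) (topOf : P → Tops P) t) x 2).card = n ∧
      Pn.F3 j t = n - 1 ∧ Pn.F6 j t = ((n : ℤ) - 1) ^ 2 ∧
      10 + 4 * ((pen (x 2)).card : ℤ) + (n : ℤ) ^ 2 - 5 * n -
        2 * n * ((uc (x 3)).card + 2 * (pen (x 2)).card + (pen (x 3)).card) ≤
          Pn.F2 j t + Pn.F4 j t := by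
  obtain ⟨K, psi, R⟩ := exists_red P j
  have hc : ∀ k, 2 ≤ k → k < 3 → c k = 0 := fun k h1 h2 => by
    obtain rfl : k = 2 := by omega
    exact c2
  obtain ⟨w, v, D⟩ := NJ.dlg h hj R B le_rfl hβ c0 c1 hc
  obtain ⟨n, h1, h2, h3, h4⟩ := D.L_low3 rfl hU
  have h6 := NJ.F6_small h hj R (NJ.small_dl h hj B hc)
  refine ⟨n, h1, h2, by rw [F3_eq]; exact h3, by rw [h6, h3], by rw [F24_eq]; exact h4⟩

/-- R with four sites -/
theorem NJ.val_r3 (B : RowB P j t 3 x c β) (hβ : β = 1) (c0 : c 0 = -1) (c1 : c 1 = 0)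
    (c2 : c 2 = 0)
    (hU : ∀ z ∈ UE j (cext (j + 1) (topOf : P → Tops P) t) x 2,
      ch j (cext (j + 1) (topOf : P → Tops P) t) z ≤ 0) :
    ∃ n0 n1 n2 u2 n3 : ℕ, (DE j (cext (j + 1) (topOf : P → Tops P) t) x 1).card = n1 ∧
      (DE j (cext (j + 1) (topOf : P → Tops P) t) x 2).card = n2 ∧
      (UE j (cext (j + 1) (topOf : P → Tops P) t) x 2).card = u2 ∧
      n1 ≤ 2 ∧ n2 ≤ 2 ∧ n0 + u2 ≤ 1 ∧ Pn.F3 j t = n1 - n2 + u2 - 1 ∧
      Pn.F6 j t = ((n1 : ℤ) - n2 + u2 - 1) ^ 2 ∧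
      Rlow n0 n1 n2 u2 n3 (pen (x 0)).card (pen (x 1)).card ≤ Pn.F2 j t + Pn.F4 j t := by
  obtain ⟨K, psi, R⟩ := exists_red P j
  obtain ⟨x', hx'⟩ : ∃ x' : ℕ → P, x' = fun k => if k = 4 then x 0 else x k := ⟨_, rfl⟩
  have hxk : ∀ k, k ≤ 3 → x' k = x k := by
    intro k hk
    rw [hx']
    show (if k = 4 then x 0 else x k) = x k
    rw [if_neg (by omega)]
  have hx4 : x' 4 = x' 0 := by
    rw [hxk 0 (by omega), hx']
    show (if 4 = 4 then x 0 else x 4) = x 0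
    rw [if_pos rfl]
  have B' := B.congr hxk
  obtain ⟨w, v, D⟩ := NJ.rg h hj R B' hβ c0 c1 c2 hx4
  have hed : ∀ k, k ≤ 2 → ed x' k = ed x k := by
    intro k hk
    unfold ed
    rw [hxk k (by omega), hxk (k + 1) (by omega)]
  have hUE : UE j (cext (j + 1) (topOf : P → Tops P) t) x' 2 =
      UE j (cext (j + 1) (topOf : P → Tops P) t) x 2 := by
    unfold UE
    rw [hed 2 le_rfl]
  have hDE : ∀ k, k ≤ 2 → DE j (cext (j + 1) (topOf : P → Tops P) t) x' k =
      DE j (cext (j + 1) (topOf : P → Tops P) t) x k := by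
    intro k hk
    unfold DE
    rw [hed k hk]
  have hs : Small j (topOf : P → Tops P) t := by
    rcases B.small h.g.H h.split with h2 | h2
    · exact h2
    · exfalso
      have := h2.1
      omega
  have h6 := NJ.F6_small h hj R hs
  obtain ⟨n0, n1, n2, u2, n3, g1, g2, -, -, g5, g6, g7, g8, g9, g10⟩ :=
    D.L_low (by rw [hUE]; exact hU)
  rw [hDE 1 (by omega)] at g1
  rw [hDE 2 (by omega)] at g2
  rw [hUE] at g5
  rw [hxk 0 (by omega), hxk 1 (by omega)] at g10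
  exact ⟨n0, n1, n2, u2, n3, g1, g2, g5, g6, g7, g8, by rw [F3_eq]; exact g9,
    by rw [h6, g9], by rw [F24_eq]; exact g10⟩

end rows

end Pool.Agent.GaussPoset.EK
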