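import Pool.Agent.W_448kr_h10.KrA
import Pool.Agent.W_448rd_h10.RdZ

/-!
MP_448cb3_co, G2, case B, window `j`: the pattern [DL] with four sites (both ends single), the weights
`W#`: the value `2 L - 3 w21 + 13 w32`, the twins over the first two elements, a private child of the
twins.  The proofs about the twins follow helper53 (FgH, FgI).  helper10.
-/

namespace Pool.Agent.GaussPoset.Win.W4

set_option linter.unusedSectionVars false

open Finset

universe u

variable {P : Type u} [Fintype P] [PartialOrder P] [DecidableEq P] {r i : ℕ}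
variable {psi : P → P} {C K : Finset P} {w v : P} {m : ℕ} {x : ℕ → P}

namespace DLg

variable (h : DLg r i K psi C w v m x)
include h

/-- the coefficient (2,1), four sites -/
theorem al2_three (hm3 : m = 3) : I2.al 2 (st i C).card (ZS i C) =
    (NE i C x 0 + (uc (x 0)).card - 1 - (pen (x 2)).card) + (NE i C x 2 - 1) := by
  have hm := h.hm
  have g0 := h.dg0
  have g2 := h.dg2
  have q2 := h.sum_vp_split
  have e4 : Ico 3 m = ∅ := by rw [hm3]; rfl
  rw [e4, sum_empty] at q2
  have a1 := h.Q.al2 h.hw h.hv h.n01 h.n12 h.n02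
  have m1 : mm i K C {x 0, x 1} = 1 := by
    have := h.mmx (a := 0) (b := 1) (by omega) (by omega)
    norm_num at this
    exact this
  have m2 : mm i K C {x 1, x 2} = 0 := by
    have := h.mmx (a := 1) (b := 2) (by omega) (by omega)
    norm_num at this
    exact this
  rw [m1, m2, g0, g2, q2] at a1
  rw [a1]
  ring

/-- the value at the weights `W#`, window `j` part, both ends single -/
theorem sharp_three (hm3 : m = 3) (hU : UE i C x 2 = ∅) (u0 : (uc (x 0)).card = 1)
    (u3 : (uc (x 3)).card = 1) : ∃ n : ℕ, n ≤ 2 ∧ wv i C = n - 1 ∧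
      2 * (NE i C x 0 - (pen (x 2)).card) ^ 2 - (NE i C x 0 - (pen (x 2)).card) + 10 +
        8 * ((pen (x 2)).card : ℤ) + 2 * (n : ℤ) ^ 2 -
        4 * n * (1 + 2 * (pen (x 2)).card + (pen (x 3)).card) +
        4 * ((Z4 i C).card - (T4 i C).card : ℤ) ≤
          2 * Lv i C - 3 * I2.al 2 (st i C).card (ZS i C) + 13 * wv i C := by
  have e2 : NE i C x 2 = ((DE i C x 2).card : ℤ) := by
    unfold NE
    rw [hU, card_empty]
    push_cast
    ring
  have e3 := h.L_form3 hm3
  have e4 := h.w3_eq
  have e5 := h.al2_three hm3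
  rw [u0, u3, e2] at e3
  rw [u0, e2] at e5
  rw [e2] at e4
  push_cast at e3 e5
  rcases h.CH2_num with ⟨d, c⟩ | ⟨d, c⟩ | ⟨d, c⟩
  · refine ⟨0, by omega, by rw [e4, d], ?_⟩
    rw [e3, e4, e5, d]
    push_cast
    linarith
  · refine ⟨1, by omega, by rw [e4, d], ?_⟩
    rw [e3, e4, e5, d]
    push_cast
    linarith
  · refine ⟨2, by omega, by rw [e4, d], ?_⟩
    rw [e3, e4, e5, d]
    push_cast
    linarith

/-- the twins over the first two elements -/
theorem twins : ∃ a b : P, a ≠ b ∧ uc a = {x 0, x 1} ∧ uc b = {x 0, x 1} ∧ dc (x 0) = {a, b} ∧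
    dc (x 1) = {a, b} := by
  classical
  have H := h.W.H
  have hm := h.hm
  have h1 := h.dn 0 1 (by omega) (by omega)
  rw [if_pos rfl, if_pos rfl] at h1
  have h2 := h.deg0
  have h3 := h.deg1
  unfold dcv at h1
  obtain ⟨a, b, hab, he⟩ := card_eq_two.1 h1
  have ma : a ⋖ x 0 ∧ a ⋖ x 1 := by
    have : a ∈ ({a, b} : Finset P) := mem_insert_self _ _
    rw [← he, mem_filter] at this
    exact this.2
  have mb : b ⋖ x 0 ∧ b ⋖ x 1 := by
    have : b ∈ ({a, b} : Finset P) := mem_insert_of_mem (mem_singleton_self _)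
    rw [← he, mem_filter] at this
    exact this.2
  have hne : x 0 ≠ x 1 := h.n01
  have key : ∀ y : P, y ⋖ x 0 → y ⋖ x 1 → uc y = {x 0, x 1} := by
    intro y h4 h5
    refine (eq_of_subset_of_card_le ?_ ?_).symm
    · intro s hs
      rw [mem_insert, mem_singleton] at hs
      rcases hs with rfl | rfl
      · exact mem_uc.2 h4
      · exact mem_uc.2 h5
    · rw [card_pair hne]
      exact uc_card_le H _
  have key2 : ∀ s : P, (dc s).card = 2 → a ⋖ s → b ⋖ s → dc s = {a, b} := by
    intro s hs h4 h5
    refine (eq_of_subset_of_card_le ?_ ?_).symm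
    · intro y hy
      rw [mem_insert, mem_singleton] at hy
      rcases hy with rfl | rfl
      · exact mem_dc.2 h4
      · exact mem_dc.2 h5
    · rw [card_pair hab, hs]
  exact ⟨a, b, hab, key a ma.1 ma.2, key b mb.1 mb.2, key2 _ h2 ma.1 mb.1, key2 _ h3 ma.2 mb.2⟩

end DLg

end Pool.Agent.GaussPoset.Win.W4

namespace Pool.Agent.GaussPoset.EK

set_option linter.unusedSectionVars false

open Finset Win St Polynomial Wd Win.W4
open Pool.Agent.GaussPoset.Win.SO (PN vp mem_PN)

universe u

variable {P : Type u} [Fintype P] [PartialOrder P] [DecidableEq P] {r i j : ℕ}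

variable {m : ℕ} {x : ℕ → P} {c : ℕ → ℤ} {t : Tops P} {lo hi : ℕ → ℕ} {e : ℕ → ℕ → P}

variable {K : Finset P} {psi : P → P} {w v : P}

/-- the signed numbers at a part with two unmatched elements -/
theorem kr_sa (h : NJ P r j) (R : Red P j K psi)
    (Q : K5 r j K psi (cext (j + 1) (topOf : P → Tops P) t) w v) (T : Finset P) :
    sa j (topOf : P → Tops P) K T t =
      (if Disjoint (uc w) T then 1 else 0) - (if Disjoint (dc v) T then 1 else 0) := by
  classical
  have lw := Q.lw0
  have lv := Q.lv0
  have wK : w ∈ K := (Q.hK w Q.wC).2 (Or.inl rfl)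
  have vK : v ∈ K := (Q.hK v Q.vC).2 (Or.inr rfl)
  have wd : w ∈ dbL P j := by
    rcases mem_union.1 (R.sub wK) with h1 | h1
    · exact h1
    · have := (mem_dbU.1 h1).1
      omega
  have vd : v ∈ dbU P j := by
    rcases mem_union.1 (R.sub vK) with h1 | h1
    · have := (mem_dbL.1 h1).1
      omega
    · exact h1
  have tw : topOf w = t := mem_cext.1 Q.wC w le_rfl (by omega)
  have tv : topOf v = t := mem_cext.1 Q.vC v le_rfl (by omega)
  have hne : w ≠ v := Q.ne
  rw [sa_eq]
  have e1 : K.filter (fun k => topOf k = t ∧ Disjoint (ns j k) T) =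
      ({w, v} : Finset P).filter (fun k => Disjoint (ns j k) T) := by
    ext k
    rw [mem_filter, mem_filter, mem_insert, mem_singleton]
    constructor
    · rintro ⟨h1, h2, h3⟩
      have hl : lev k ≤ j + 1 := by
        rcases mem_union.1 (R.sub h1) with h4 | h4
        · exact (mem_dbL.1 h4).1.le
        · have := (mem_dbU.1 h4).1
          omega
      exact ⟨(Q.hK k (mem_cext_of_le h.split hl h2)).1 h1, h3⟩
    · rintro ⟨h1 | h1, h2⟩
      · subst h1
        exact ⟨wK, tw, h2⟩
      · subst h1
        exact ⟨vK, tv, h2⟩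
  rw [e1, sum_filter, sum_pair hne, sgn_low wd, sgn_upp vd, ns_L wd, ns_U vd]
  split_ifs <;> norm_num

/-- a private child of the twins: a light join below the twins, or an inner element over three sites -/
theorem DL_light (h : NJ P r j) (hj : 2 ≤ j)
    (D : DLg r j K psi (cext (j + 1) (topOf : P → Tops P) t) w v m x)
    (tx : ∀ k, k ≤ m → topOf (x k) = t) (lx : ∀ k, k ≤ m → lev (x k) = j)
    (hDE : (DE j (cext (j + 1) (topOf : P → Tops P) t) x 0).Nonempty) :
    (∃ q, q ∈ Z4 j (cext (j + 1) (topOf : P → Tops P) t) ∧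
        q ∉ T4 j (cext (j + 1) (topOf : P → Tops P) t)) ∨
      ∃ z y s, K2.SD j (topOf : P → Tops P) z y s ∧ topOf y = t ∧ uc y = {x 0, x 1} := by
  classical
  have H := h.g.H
  have hm := D.hm
  obtain ⟨a, b, hab, ua, ub, d0, d1⟩ := D.twins
  have hne : x 0 ≠ x 1 := D.n01
  have l0 : lev (x 0) = j := lx 0 (by omega)
  have la : lev a = j + 1 := by
    have := lev_uc H (show x 0 ∈ uc a by rw [ua]; exact mem_insert_self _ _)
    omega
  have lb : lev b = j + 1 := by
    have := lev_uc H (show x 0 ∈ uc b by rw [ub]; exact mem_insert_self _ _)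
    omega
  -- the private child
  obtain ⟨z, hz⟩ := hDE
  obtain ⟨hzC, hzP, hzs⟩ := mem_DE.1 hz
  obtain ⟨lz, hz1, y, hzy, hy2⟩ := mem_PD.1 hzP
  obtain ⟨y', hy'⟩ := card_eq_one.1 hz1
  have hyy : y = y' := by
    have := mem_uc.2 hzy
    rw [hy', mem_singleton] at this
    exact this
  subst hyy
  have huy : uc y = {x 0, x 1} := by
    rw [← SO.sit_PD H lz hy', hzs]
    rfl
  have hyab : y = a ∨ y = b := by
    have h1 : y ∈ dc (x 0) := mem_dc.2 (mem_uc.1 (by rw [huy]; exact mem_insert_self _ _))
    rw [d0, mem_insert, mem_singleton] at h1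
    exact h1
  -- the twins have at most one common child
  have hdab : dcv a b ≤ 1 := by
    unfold dcv
    have h1 : univ.filter (fun q => q ⋖ a ∧ q ⋖ b) ⊆ (dc y).erase z := by
      intro q hq
      rw [mem_filter] at hq
      rw [mem_erase, mem_dc]
      refine ⟨?_, ?_⟩
      · rintro rfl
        have e1 := mem_uc.2 hq.2.1
        have e2 := mem_uc.2 hq.2.2
        rw [hy', mem_singleton] at e1 e2
        exact hab (e1.trans e2.symm)
      · rcases hyab with rfl | rfl
        · exact hq.2.1
        · exact hq.2.2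
    have h2 := card_le_card h1
    rw [card_erase_of_mem (mem_dc.2 hzy)] at h2
    have h3 := dc_card_le H y
    omega
  have huab : ucv a b = 2 := by
    unfold ucv
    have h1 : univ.filter (fun q => a ⋖ q ∧ b ⋖ q) = {x 0, x 1} := by
      ext q
      rw [mem_filter, ← mem_uc, ← mem_uc, ua, ub]
      simp
    rw [h1, card_pair hne]
  have hDf : Df (j + 1) {a, b} ≠ 0 := by
    rw [Df_pair H la hab, huab]
    intro h1
    have : (dcv a b : ℤ) ≤ 1 := by exact_mod_cast hdab
    push_cast at h1
    linarith
  -- the twins are not a piece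
  have hp : ∃ u ∈ ({a, b} : Finset P), ∃ s, lev s = j + 1 ∧ s ∉ ({a, b} : Finset P) ∧
      dcv u s ≠ 0 := by
    by_contra hcon
    push Not at hcon
    refine hDf (Mp.piece_pair H (by have := h.hr; omega) hab ⟨?_, ?_⟩)
    · intro u hu
      rw [mem_insert, mem_singleton] at hu
      rcases hu with rfl | rfl
      · exact mem_lv.2 la
      · exact mem_lv.2 lb
    · intro u hu s hs hsn
      have h1 := hcon u hu s hs hsn
      have hlu : lev u = j + 1 ∧ uc u = {x 0, x 1} := by
        rw [mem_insert, mem_singleton] at hu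
        rcases hu with rfl | rfl
        · exact ⟨la, ua⟩
        · exact ⟨lb, ub⟩
      have hus : u ≠ s := by
        rintro rfl
        exact hsn hu
      have h2 : ucv u s = 0 := by
        unfold ucv
        rw [card_eq_zero, filter_eq_empty_iff]
        rintro q - ⟨h3, h4⟩
        rw [← mem_uc, hlu.2, mem_insert, mem_singleton] at h3
        rcases h3 with rfl | rfl
        · exact hsn (by rw [← d0]; exact mem_dc.2 h4)
        · exact hsn (by rw [← d1]; exact mem_dc.2 h4)
      rw [Df_pair H hlu.1 hus, h1, h2]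
      simp
  obtain ⟨u, hu, s, ls, hsn, hd⟩ := hp
  have hlu : lev u = j + 1 ∧ uc u = {x 0, x 1} ∧ u ∈ dc (x 0) := by
    refine ⟨?_, ?_, by rw [d0]; exact hu⟩
    · rw [mem_insert, mem_singleton] at hu
      rcases hu with rfl | rfl
      · exact la
      · exact lb
    · rw [mem_insert, mem_singleton] at hu
      rcases hu with rfl | rfl
      · exact ua
      · exact ub
  obtain ⟨lu, uu, du⟩ := hlu
  have hus : u ≠ s := by
    rintro rfl
    exact hsn hu
  obtain ⟨q, hqu, hqs⟩ := StA_of_dcv (v := u) (v' := s) (by omega)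
  have lq := lev_cov H hqu
  have hq : uc q = {u, s} := by
    refine (eq_of_subset_of_card_le ?_ ?_).symm
    · intro p hp
      rw [mem_insert, mem_singleton] at hp
      rcases hp with rfl | rfl
      · exact mem_uc.2 hqu
      · exact mem_uc.2 hqs
    · rw [card_pair hus]
      exact uc_card_le H _
  have hdis : Disjoint (uc u) (uc s) := by
    rw [disjoint_left]
    intro p hp1 hp2
    rw [uu, mem_insert, mem_singleton] at hp1
    rcases hp1 with rfl | rfl
    · exact hsn (by rw [← d0]; exact mem_dc.2 (mem_uc.1 hp2))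
    · exact hsn (by rw [← d1]; exact mem_dc.2 (mem_uc.1 hp2))
  have cu : (uc u).card = 2 := by rw [uu, card_pair hne]
  have cs : (uc s).card = 1 := by
    rcases uc_card_cases H (x := s) (by omega) with h1 | h1
    · exact h1
    · exfalso
      obtain ⟨p, hp1, hp2⟩ := NJ.noQ h hj q (by omega) u
        (mem_uc.2 hqu) s (mem_uc.2 hqs) hus cu h1
      exact disjoint_left.1 hdis hp1 hp2
  have tu : topOf u = t := by
    have h1 := h.split (x := u) (y := x 0) (mem_dc.1 du) (by omega)
    rw [h1]
    exact tx 0 (by omega)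
  by_cases ts : topOf s = t
  · left
    have hqC : q ∈ cext (j + 1) (topOf : P → Tops P) t := by
      rw [mem_cext]
      intro p hp hlp
      rcases eq_or_lt_of_le hp with h1 | h1
      · rw [← h1] at hlp
        omega
      · obtain ⟨p', hp', hp2⟩ := Hul.exists_cov h1
        rw [← mem_uc, hq, mem_insert, mem_singleton] at hp'
        rcases hp' with rfl | rfl
        · rw [← tu]
          exact (Split.le (l := j + 1) (κ := (topOf : P → Tops P)) h.split _ hp2 (by omega)).symm
        · rw [← ts]
          exact (Split.le (l := j + 1) (κ := (topOf : P → Tops P)) h.split _ hp2 (by omega)).symm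
    have hst : sts j q = uc u ∪ uc s := by
      rw [Rd.sts_bi H (by omega), hq, biUnion_insert, singleton_biUnion]
    have hup : up j q = 3 := by
      rw [← card_sts, hst, card_union_of_disjoint hdis, cs, cu]
    refine ⟨q, mem_Z4.2 (Or.inl (mem_ZL.2 ⟨hqC, by omega, hup⟩)), ?_⟩
    intro h1
    rcases mem_T4.1 h1 with ⟨-, h2⟩ | ⟨h2, -⟩
    · have := h2 s (by rw [hq]; exact mem_insert_of_mem (mem_singleton_self _))
      omega
    · have := (mem_ZU.1 h2).2.1
      omega
  · right
    exact ⟨q, u, s, ⟨by omega, hq, fun h1 => ts (by rw [← h1]; exact tu), cu, cs⟩, tu, uu⟩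

end Pool.Agent.GaussPoset.EK
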