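import Pool.Agent.W_448kr_h10.KrB
import Pool.Agent.W_448kr_h10.KrC
import Pool.Agent.W_448win_h80.R3C

/-!
MP_448cb3_co, G2, case B, windows `j - 1` and `j`: [DL] with four sites, both ends single, the doubled
edge at the left end.  Here `j = i + 1`.  helper10.
-/

namespace Pool.Agent.GaussPoset.R3

set_option linter.unusedSectionVars false

open Finset Win St Wd Win.W4 EK
open Pool.Agent.GaussPoset.Win.Pn
open Pool.Agent.GaussPoset.Win.Pf
open Pool.Agent.GaussPoset.Win.SO (N1f mem_N1f N5f F5 mem_F5)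

universe u

variable {P : Type u} [Fintype P] [PartialOrder P] [DecidableEq P] {r j i : ℕ}
  {t : Tops P} {lo hi : ℕ → ℕ} {e : ℕ → ℕ → P} {x : ℕ → P} {c : ℕ → ℤ} {β : ℤ}

lemma two_sq_sub' (a : ℤ) : 0 ≤ 2 * a ^ 2 - a := by
  rcases lt_or_ge 0 a with h | h <;> nlinarith

section row

variable (h : NJ P r j) (hij : i + 1 = j) (hi1 : 1 ≤ i) (B : RowB P j t 3 x c β)
include h hij hi1 B

/-- no twins -/
lemma tws_D (c1 : c 1 = -1) (u0 : (uc (x 0)).card = 1) (u3 : (uc (x 3)).card = 1) :
    Tws i (SS i t) = ∅ := by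
  classical
  have h1 := h.tws_test hij hi1 B (fun _ => True)
  simp only [filter_true] at h1
  have h2 : Et x 3 c = ∅ := by
    rw [eq_empty_iff_forall_notMem]
    intro k hk
    obtain ⟨k1, k2⟩ := mem_Et.1 hk
    rw [Ed_one h hij hi1 B u0 u3 k1, c1] at k2
    norm_num at k2
  rw [h2, card_empty] at h1
  exact card_eq_zero.1 (by exact_mod_cast h1)

/-- at most as many lower as upper elements over three sites -/
lemma bal_D (c1 : c 1 = -1) (u0 : (uc (x 0)).card = 1) (u3 : (uc (x 3)).card = 1) :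
    (ZL i (SS i t)).card ≤ (ZU i (SS i t)).card := by
  classical
  have h1 := h.bal_test hij hi1 B (fun _ => True)
  simp only [filter_true] at h1
  have h2 : ∑ k ∈ Ed x 3, c k ≤ 0 := by
    refine sum_nonpos fun k hk => ?_
    rw [Ed_one h hij hi1 B u0 u3 hk, c1]
    norm_num
  have h3 : ((ZL i (SS i t)).card : ℤ) ≤ (ZU i (SS i t)).card := by linarith
  exact_mod_cast h3

/-- a pendant of the part is the private child of `x 2` -/
lemma pd_x2 (u0 : (uc (x 0)).card = 1) (u3 : (uc (x 3)).card = 1) (hp1 : pen (x 1) = ∅) {p : P}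
    (hp : p ∈ PD P i) (ht : (topOf p : Tops P) = t) : uc p = {x 2} := by
  classical
  have H := h.g.H
  obtain ⟨l1, l2, y0, y1, y2⟩ := mem_PD.1 hp
  obtain ⟨y, hy⟩ := card_eq_one.1 l2
  have hyy : y0 = y := by
    rw [← mem_uc, hy, mem_singleton] at y1
    exact y1
  subst hyy
  have ly := lev_uc H (mem_uc.2 y1)
  have hyt : (topOf y0 : Tops P) = t := by
    rw [← ht]
    exact (h.split y1 (by omega)).symm
  obtain ⟨k, hk, hxk⟩ := B.row.surj y0 (by omega) hyt
  have hk4 : k = 0 ∨ k = 1 ∨ k = 2 ∨ k = 3 := by omega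
  rcases hk4 with rfl | rfl | rfl | rfl
  · rw [hxk] at u0; omega
  · exfalso
    have : p ∈ pen (x 1) := mem_pen.2 ⟨by rw [hxk]; exact y1, l2⟩
    rw [hp1] at this
    exact absurd this (notMem_empty _)
  · rw [hy, hxk]
  · rw [hxk] at u3; omega

/-- no pendant: no flip -/
lemma F5_none (he : (PD P i).filter (fun p => (topOf p : Tops P) = t) = ∅) :
    F5 i (SS i t) = ∅ := by
  classical
  rw [eq_empty_iff_forall_notMem]
  intro q hq
  obtain ⟨q1, q2, -⟩ := mem_F5.1 hq
  have hlq := (mem_PD.1 q2).1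
  have hqt : q.1 ≤ (t : P) := (h.mem (by omega) t (by omega)).1 q1
  have : q.1 ∈ (PD P i).filter (fun p => (topOf p : Tops P) = t) := by
    refine mem_filter.2 ⟨q2, Subtype.ext ?_⟩
    exact Hul.top_unique (h.nj (z := q.1) (by omega)) (topOf q.1).2 t.2 (le_topOf q.1) hqt
  rw [he] at this
  exact absurd this (notMem_empty _)

/-- the word OC OO OO, the doubled edge at the open side: no flip -/
lemma F5_open (C : Cp.Comp (i + 1) (t : P) lo hi e) (D : Oc i lo hi)
    (hx2 : x 2 = e (i + 1) 2) (u0 : (uc (x 0)).card = 1) (u3 : (uc (x 3)).card = 1)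
    (hp1 : pen (x 1) = ∅) : F5 i (SS i t) = ∅ := by
  classical
  have H := h.g.H
  have d5 := D.i5
  by_contra hF
  obtain ⟨⟨p, q⟩, hpq⟩ := nonempty_iff_ne_empty.2 hF
  obtain ⟨y, u, a, s, b, F⟩ := nj_flp h hij hi1 t hpq
  -- the pendant
  have hpt : (topOf p : Tops P) = t := by
    have h1 : p ≤ (t : P) := (h.mem (by omega) t (by rw [F.lp]; omega)).1 F.mp
    exact Subtype.ext (Hul.top_unique (h.nj (z := p) (by rw [F.lp]; omega)) (topOf p).2 t.2
      (le_topOf p) h1)
  have hup := pd_x2 h hij hi1 B u0 u3 hp1 F.pD hpt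
  rw [F.cp, singleton_inj] at hup
  have hy : y = e (i + 1) 2 := by rw [hup, hx2]
  have c21 : e (i + 1) 2 ⋖ e i 1 := (C.cov i 2 1 (by omega) (by rw [D.l0]; omega)
    (by rw [D.h0]; omega) (by rw [D.l1]; omega) (by rw [D.h1]; omega)).2 (Or.inr rfl)
  have c22 : e (i + 1) 2 ⋖ e i 2 := (C.cov i 2 2 (by omega) (by rw [D.l0]; omega)
    (by rw [D.h0]; omega) (by rw [D.l1]; omega) (by rw [D.h1])).2 (Or.inl rfl)
  have hne : e i 1 ≠ e i 2 := fun he => by
    have := C.inj i 1 2 (by omega) (by rw [D.l1]; omega) (by rw [D.h1]; omega)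
      (by rw [D.l1]; omega) (by rw [D.h1]) he
    omega
  have hy1 : e i 1 ∈ ({a, s} : Finset P) := by
    rw [← F.cy, hy]
    exact mem_uc.2 c21
  have hy2 : e i 2 ∈ ({a, s} : Finset P) := by
    rw [← F.cy, hy]
    exact mem_uc.2 c22
  -- the upper pendant
  have hqt : q ≤ (t : P) := (h.mem (by omega) t (by have := F.lq; omega)).1 F.mq
  obtain ⟨k, k1, k2, k3⟩ := C.surj q hqt (by have := F.lq; omega)
  have lq : lev q = i - 2 := by have := F.lq; omega
  rw [lq] at k1 k2 k3
  rw [D.l3] at k1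
  rw [D.h3] at k2
  have hcov : ∀ k' s', k' = k ∨ k' = k + 1 → k' ≤ 1 → s' = e (i - 1) k' → s' ∈ dc q := by
    intro k' s' hk hk1 hs
    rw [hs, ← k3]
    have h1 := (C.cov (i - 2) k' k (by omega) (by rw [show i - 2 + 1 = i - 1 by omega, D.l2]; omega)
      (by rw [show i - 2 + 1 = i - 1 by omega, D.h2]; omega) (by rw [D.l3]; omega)
      (by rw [D.h3]; omega)).2 (by omega)
    rw [show i - 2 + 1 = i - 1 by omega] at h1
    exact mem_dc.2 h1
  have hk : k = 1 := by
    by_contra hk1
    obtain rfl : k = 0 := by omega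
    have m0 := hcov 0 _ (Or.inl rfl) (by omega) rfl
    have m1 := hcov 1 _ (Or.inr rfl) (by omega) rfl
    rw [F.cq, mem_singleton] at m0 m1
    have := C.inj (i - 1) 0 1 (by omega) (by rw [D.l2]) (by rw [D.h2]; omega)
      (by rw [D.l2]; omega) (by rw [D.h2]) (m0.trans m1.symm)
    omega
  subst hk
  have m1 := hcov 1 _ (Or.inl rfl) le_rfl rfl
  rw [F.cq, mem_singleton] at m1
  have d1 : e i 1 ⋖ e (i - 1) 1 := by
    have h1 := (C.cov (i - 1) 1 1 (by omega) (by rw [show i - 1 + 1 = i by omega, D.l1]; omega)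
      (by rw [show i - 1 + 1 = i by omega, D.h1]; omega) (by rw [D.l2]; omega)
      (by rw [D.h2])).2 (Or.inl rfl)
    rwa [show i - 1 + 1 = i by omega] at h1
  have d2 : e i 2 ⋖ e (i - 1) 1 := by
    have h1 := (C.cov (i - 1) 2 1 (by omega) (by rw [show i - 1 + 1 = i by omega, D.l1]; omega)
      (by rw [show i - 1 + 1 = i by omega, D.h1]) (by rw [D.l2]; omega)
      (by rw [D.h2])).2 (Or.inr rfl)
    rwa [show i - 1 + 1 = i by omega] at h1
  have hz1 : e i 1 ∈ ({s, b} : Finset P) := by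
    rw [← F.cu, ← m1]
    exact mem_dc.2 d1
  have hz2 : e i 2 ∈ ({s, b} : Finset P) := by
    rw [← F.cu, ← m1]
    exact mem_dc.2 d2
  have n1 := F.as
  have n2 := F.sb
  have n3 := F.ab
  rw [mem_insert, mem_singleton] at hy1 hy2 hz1 hz2
  rcases hy1 with g1 | g1 <;> rcases hy2 with g2 | g2 <;> rcases hz1 with g3 | g3 <;>
    rcases hz2 with g4 | g4 <;>
    first
    | exact hne (g1.trans g2.symm)
    | exact hne (g3.trans g4.symm)
    | exact n1 (g1.symm.trans g3)
    | exact n1 (g2.symm.trans g4)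
    | exact n2 (g1.symm.trans g3)
    | exact n2 (g2.symm.trans g4)
    | exact n3 (g1.symm.trans g3)
    | exact n3 (g2.symm.trans g4)

/-- an element over the first pair is not below five elements of the level `i` -/
lemma not_N5_first (u0 : (uc (x 0)).card = 1) {z y s : P}
    (S : K2.SD j (topOf : P → Tops P) z y s) (hy : uc y = {x 0, x 1}) :
    z ∉ So.N5s i (topOf : P → Tops P) := by
  classical
  have H := h.g.H
  intro hz
  obtain ⟨-, -, -, h5⟩ := So.mem_N5s.1 hz
  have hD : So.CrV i (topOf : P → Tops P) z y s := ⟨by have := S.lz; omega, S.huc, S.hk⟩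
  obtain ⟨q, hq⟩ := card_eq_one.1 S.cv
  rw [So.up_eq] at h5
  have h6 : (lv P i).filter (fun p => z < p) ⊆ uc (x 1) ∪ uc q := by
    intro p hp
    rw [mem_filter, mem_lv] at hp
    obtain ⟨b, hb, hp2⟩ := (hD.mem0 H).1 hp
    rw [hy, hq, mem_union, mem_insert, mem_singleton, mem_singleton] at hb
    rw [mem_union]
    rcases hb with (rfl | rfl) | rfl
    · left
      have h7 := B.ucv_x 0 1 (by omega) (by omega)
      rw [if_pos rfl] at h7
      unfold ucv at h7
      obtain ⟨u, hu⟩ := card_pos.1 (by rw [h7]; norm_num)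
      rw [mem_filter] at hu
      obtain ⟨u', hu'⟩ := card_eq_one.1 u0
      have h8 := mem_uc.2 hu.2.1
      rw [hu', mem_singleton] at h8 hp2
      rw [hp2, ← h8]
      exact mem_uc.2 hu.2.2
    · exact Or.inl hp2
    · exact Or.inr hp2
  have h7 := card_le_card h6
  have h8 := card_union_le (uc (x 1)) (uc q)
  have h9 := uc_card_le H (x 1)
  have h10 := uc_card_le H q
  omega

/-- the window `j - 1` of the row is nonnegative -/
lemma open_share (c1 : c 1 = -1) (u0 : (uc (x 0)).card = 1) (u3 : (uc (x 3)).card = 1)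
    (hF : F5 i (SS i t) = ∅) : 0 ≤ 2 * own1 wR i t +
      ∑ p ∈ (PD P i).filter (fun p => (topOf p : Tops P) = t), shr wR i p := by
  have h3 := three h hij hi1 B u0 u3
  have h1 := kr_share h hij hi1 (t := t) h3.le hF (tws_D h hij hi1 B c1 u0 u3)
    (bal_D h hij hi1 B c1 u0 u3)
  have e1 : own1 wR i t = -A3 i t + 9 * B5 i t + C6 i t + 4 * C8 i t + 3 * C10 i t := by
    unfold own1
    simp only [wR]
    ring
  rw [e1]
  exact h1

/-- THE VALUE of the row: three cases, the exact bounds -/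
theorem open3_fine (hβ : β = 0) (c0 : c 0 = 1) (c1 : c 1 = -1) (c2 : c 2 = 0)
    (C : Cp.Comp (i + 1) (t : P) lo hi e) (u0 : (uc (x 0)).card = 1) (u3 : (uc (x 3)).card = 1)
    (hU : UE j (cext (j + 1) (topOf : P → Tops P) t) x 2 = ∅)
    (hD : pen (x 2) = ∅ ∨ (Oc i lo hi ∧ x 2 = e (i + 1) 2)) :
    0 < 2 * own wR i j t + ∑ p ∈ (PD P i).filter (fun p => (topOf p : Tops P) = t), shr wR i p ∨
    (-6 ≤ 2 * own wR i j t +
        ∑ p ∈ (PD P i).filter (fun p => (topOf p : Tops P) = t), shr wR i p ∧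
      wv j (cext (j + 1) (topOf : P → Tops P) t) = 1) ∨
    (-12 ≤ 2 * own wR i j t +
        ∑ p ∈ (PD P i).filter (fun p => (topOf p : Tops P) = t), shr wR i p ∧
      wv j (cext (j + 1) (topOf : P → Tops P) t) = 1 ∧
      ∃ z y v : P, K2.SD j (topOf : P → Tops P) z y v ∧ topOf y = t ∧
        (∀ (K : Finset P) (psi : P → P), Red P j K psi →
          sa j (topOf : P → Tops P) K (uc y) (topOf y) = 0) ∧
        z ∉ So.N5s i (topOf : P → Tops P)) := by
  classical
  have hc : ∀ k, 2 ≤ k → k < 3 → c k = 0 := fun k h1 h2 => by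
    obtain rfl : k = 2 := by omega
    exact c2
  obtain ⟨K, psi, R⟩ := exists_red P j
  obtain ⟨w, v, Dg⟩ := NJ.dlg h (by omega) R B le_rfl hβ c0 c1 hc
  have p1 : pen (x 1) = ∅ := by
    obtain ⟨a, b, hab, ua, ub, d0, d1⟩ := Dg.twins
    rw [eq_empty_iff_forall_notMem]
    intro q hq
    obtain ⟨h1, h2⟩ := mem_pen.1 hq
    have h3 := mem_dc.2 h1
    rw [d1, mem_insert, mem_singleton] at h3
    rcases h3 with rfl | rfl
    · rw [ua, card_pair Dg.n01] at h2
      omega
    · rw [ub, card_pair Dg.n01] at h2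
      omega
  have hF : F5 i (SS i t) = ∅ := by
    rcases hD with hD | ⟨hD, hx⟩
    · refine F5_none h hij hi1 B ?_
      rw [eq_empty_iff_forall_notMem]
      intro p hp
      obtain ⟨hp, ht⟩ := mem_filter.1 hp
      have h1 := pd_x2 h hij hi1 B u0 u3 p1 hp ht
      have : p ∈ pen (x 2) := mem_pen.2 ⟨mem_uc.1 (by rw [h1]; exact mem_singleton_self _),
        (mem_PD.1 hp).2.1⟩
      rw [hD] at this
      exact absurd this (notMem_empty _)
    · exact F5_open h hij hi1 B C hD hx u0 u3 p1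
  have hs := open_share h hij hi1 B c1 u0 u3 hF
  obtain ⟨n, hn, hw, hv⟩ := Dg.sharp_three rfl hU u0 u3
  have ho : own wR i j t = own1 wR i t + (2 * Lv j (cext (j + 1) (topOf : P → Tops P) t) -
      3 * I2.al 2 (st j (cext (j + 1) (topOf : P → Tops P) t)).card
        (ZS j (cext (j + 1) (topOf : P → Tops P) t)) +
        13 * wv j (cext (j + 1) (topOf : P → Tops P) t)) := by
    rw [own_eq, own2_R]
  rw [ho]
  set V2 := 2 * Lv j (cext (j + 1) (topOf : P → Tops P) t) -
      3 * I2.al 2 (st j (cext (j + 1) (topOf : P → Tops P) t)).card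
        (ZS j (cext (j + 1) (topOf : P → Tops P) t)) +
        13 * wv j (cext (j + 1) (topOf : P → Tops P) t)
  set S := ∑ p ∈ (PD P i).filter (fun p => (topOf p : Tops P) = t), shr wR i p
  have hT := card_le_card (T4_subset j (cext (j + 1) (topOf : P → Tops P) t))
  have hT' : ((T4 j (cext (j + 1) (topOf : P → Tops P) t)).card : ℤ) ≤
      (Z4 j (cext (j + 1) (topOf : P → Tops P) t)).card := by exact_mod_cast hT
  have g2 := Dg.deg2
  have g3 := Dg.deg3' rfl
  have b2 := Dg.W.dc_le (k := 2) (by omega)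
  have b3 := Dg.W.dc_le (k := 3) (by omega)
  have q2 : (pen (x 2)).card = 0 ∨ (pen (x 2)).card = 1 := by omega
  have q3 : (pen (x 3)).card = 0 ∨ (pen (x 3)).card = 1 := by omega
  have hsq := two_sq_sub' (NE j (cext (j + 1) (topOf : P → Tops P) t) x 0 - (pen (x 2)).card)
  have qn : n = 0 ∨ n = 1 ∨ n = 2 := by omega
  rcases qn with rfl | rfl | rfl
  · left
    push_cast at hv
    rcases q2 with q2 | q2 <;> rw [q2] at hv hsq <;> push_cast at hv hsq <;> linarith
  · left
    push_cast at hv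
    rcases q2 with q2 | q2 <;> rcases q3 with q3 | q3 <;> rw [q2] at hv hsq <;>
      rw [q3] at hv <;> push_cast at hv hsq <;> linarith
  · have hw0 : wv j (cext (j + 1) (topOf : P → Tops P) t) = 1 := by
      rw [hw]
      norm_num
    by_cases hq : (pen (x 2)).card = 1 ∧ (pen (x 3)).card = 1
    · obtain ⟨q2', q3'⟩ := hq
      rw [q2'] at hv hsq
      rw [q3'] at hv
      push_cast at hv hsq
      rcases (DE j (cext (j + 1) (topOf : P → Tops P) t) x 0).eq_empty_or_nonempty with h0 | h0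
      · right; left
        refine ⟨?_, hw0⟩
        have e0 : NE j (cext (j + 1) (topOf : P → Tops P) t) x 0 =
            - ((UE j (cext (j + 1) (topOf : P → Tops P) t) x 0).card : ℤ) := by
          unfold NE
          rw [h0, card_empty, Nat.cast_zero, zero_sub]
        have hu : (0 : ℤ) ≤ ((UE j (cext (j + 1) (topOf : P → Tops P) t) x 0).card : ℤ) :=
          Nat.cast_nonneg _
        rw [e0] at hv
        have hu2 := mul_nonneg hu hu
        nlinarith
      · rcases DL_light h (by omega) Dg (fun k hk => B.row.kap k hk)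
          (fun k hk => B.row.lev_x k hk) h0 with ⟨q, hq1, hq2⟩ | ⟨z, y, s, Sd, hy, huy⟩
        · right; left
          refine ⟨?_, hw0⟩
          have h1 : (T4 j (cext (j + 1) (topOf : P → Tops P) t)).card <
              (Z4 j (cext (j + 1) (topOf : P → Tops P) t)).card :=
            card_lt_card ⟨T4_subset j _, fun hh => hq2 (hh hq1)⟩
          have h2 : ((T4 j (cext (j + 1) (topOf : P → Tops P) t)).card : ℤ) + 1 ≤
              (Z4 j (cext (j + 1) (topOf : P → Tops P) t)).card := by exact_mod_cast h1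
          linarith
        · right; right
          refine ⟨by linarith, hw0, z, y, s, Sd, hy, ?_, not_N5_first h hij hi1 B u0 Sd huy⟩
          intro K' psi' R'
          obtain ⟨w', v', D'⟩ := NJ.dlg h (by omega) R' B le_rfl hβ c0 c1 hc
          rw [hy, kr_sa h R' D'.Q, D'.hw, D'.hv, huy, if_neg, if_neg]
          · norm_num
          · rw [disjoint_left]
            push Not
            exact ⟨x 1, mem_insert_self _ _, mem_insert_of_mem (mem_singleton_self _)⟩
          · rw [disjoint_left]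
            push Not
            exact ⟨x 0, mem_insert_self _ _, mem_insert_self _ _⟩
    · left
      push_cast at hv
      rcases q2 with q2 | q2
      · rw [q2] at hv hsq
        rcases q3 with q3 | q3 <;> rw [q3] at hv <;> push_cast at hv hsq <;> linarith
      · rcases q3 with q3 | q3
        · rw [q2] at hv hsq
          rw [q3] at hv
          push_cast at hv hsq
          linarith
        · exact absurd ⟨q2, q3⟩ hq

/-- THE VALUE of the row: three cases -/
theorem open3_val (hβ : β = 0) (c0 : c 0 = 1) (c1 : c 1 = -1) (c2 : c 2 = 0)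
    (C : Cp.Comp (i + 1) (t : P) lo hi e) (u0 : (uc (x 0)).card = 1) (u3 : (uc (x 3)).card = 1)
    (hU : UE j (cext (j + 1) (topOf : P → Tops P) t) x 2 = ∅)
    (hD : pen (x 2) = ∅ ∨ (Oc i lo hi ∧ x 2 = e (i + 1) 2)) :
    0 < 2 * own wR i j t + ∑ p ∈ (PD P i).filter (fun p => (topOf p : Tops P) = t), shr wR i p ∨
    (-8 < 2 * own wR i j t +
        ∑ p ∈ (PD P i).filter (fun p => (topOf p : Tops P) = t), shr wR i p ∧
      wv j (cext (j + 1) (topOf : P → Tops P) t) ≠ 0) ∨
    (-16 < 2 * own wR i j t +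
        ∑ p ∈ (PD P i).filter (fun p => (topOf p : Tops P) = t), shr wR i p ∧
      wv j (cext (j + 1) (topOf : P → Tops P) t) ≠ 0 ∧
      ∃ z y v : P, K2.SD j (topOf : P → Tops P) z y v ∧ topOf y = t ∧
        (∀ (K : Finset P) (psi : P → P), Red P j K psi →
          sa j (topOf : P → Tops P) K (uc y) (topOf y) = 0) ∧
        z ∉ So.N5s i (topOf : P → Tops P)) := by
  rcases open3_fine h hij hi1 B hβ c0 c1 c2 C u0 u3 hU hD with h1 | ⟨h1, h2⟩ | ⟨h1, h2, h3⟩
  · exact Or.inl h1
  · refine Or.inr (Or.inl ⟨by linarith, ?_⟩)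
    rw [h2]
    norm_num
  · refine Or.inr (Or.inr ⟨by linarith, ?_, h3⟩)
    rw [h2]
    norm_num

end row

end Pool.Agent.GaussPoset.R3
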