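import Pool.Agent.W_448kr_h10.KrD
import Pool.Agent.W_448win_h80.R3E

/-!
MP_448cb3_co, G2, case B, windows `j - 1` and `j`: THE LEAF `HOpen3` ([DL], four sites, both ends single,
the doubled edge at the low end of a late word).  Here `j = i + 1`.  helper10.
-/

namespace Pool.Agent.GaussPoset.EK

set_option linter.unusedSectionVars false

open Finset Win St Polynomial Wd Win.W4

universe u

variable {P : Type u} [Fintype P] [PartialOrder P] [DecidableEq P] {r i : ℕ}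

/-- the value of the row, fine form -/
theorem open3_altF {t : Tops P} {x : ℕ → P} {c : ℕ → ℤ} {β : ℤ} {lo hi : ℕ → ℕ}
    {e : ℕ → ℕ → P} {a : ℕ} (hi1 : 1 ≤ i) (h : NJ P r (i + 1)) (B : RowB P (i + 1) t 3 x c β)
    (C : Cp.Comp (i + 1) (t : P) lo hi e) (L : LateC (i + 1) a lo hi) (hD : IsDL 3 c β)
    (u0 : (uc (x 0)).card = 1) (u3 : (uc (x 3)).card = 1)
    (hU : UE (i + 1) (cext (i + 1 + 1) (topOf : P → Tops P) t) x 2 = ∅)
    (hor : ∀ k, k ≤ 3 → x k = e (i + 1) (lo (i + 1) + k)) :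
    0 < Vt i t ∨ (-6 ≤ Vt i t ∧ v3 (i + 1) t = 1) ∨
      (-12 ≤ Vt i t ∧ v3 (i + 1) t = 1 ∧ ∃ z y v : P, K2.SD (i + 1) (topOf : P → Tops P) z y v ∧
        topOf y = t ∧ (∀ (K : Finset P) (psi : P → P), Red P (i + 1) K psi →
          sa (i + 1) (topOf : P → Tops P) K (uc y) (topOf y) = 0) ∧
        z ∉ So.N5s i (topOf : P → Tops P)) := by
  obtain ⟨hb, c0, c1, c2⟩ := hD
  obtain ⟨hlen, -⟩ := B.orient h (by omega) C
  have hx : ∀ k, k ≤ 3 → (fun k => e (i + 1) (hi (i + 1) - k)) k = e (i + 1) (hi (i + 1) - k) :=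
    fun k _ => rfl
  have u3' : (uc ((fun k => e (i + 1) (hi (i + 1) - k)) 0)).card = 1 := by
    rw [hor 3 le_rfl] at u3
    show (uc (e (i + 1) (hi (i + 1) - 0))).card = 1
    rw [Nat.sub_zero, hlen]
    exact u3
  have hw := r3_word h rfl hi1 C hlen hx L u3'
  have e2 : x 2 = e (i + 1) (hi (i + 1) - 1) := by
    rw [hor 2 (by omega), hlen]
    rfl
  have hD : pen (x 2) = ∅ ∨ (R3.Oc i lo hi ∧ x 2 = e (i + 1) 2) := by
    rcases hw with hw | hw
    · left
      rw [e2]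
      exact hw
    · right
      refine ⟨hw, ?_⟩
      rw [e2, hw.h0]
  exact R3.open3_fine h rfl hi1 B hb c0 c1 (c2 2 le_rfl (by omega)) C u0 u3 hU hD

/-- THE LEAF `HOpen3` -/
theorem hopen3 (P : Type u) [Fintype P] [PartialOrder P] [DecidableEq P] : HOpen3 P := by
  intro r i t x c β lo hi e a hi1 hC B C _ L hD u0 u3 hU hor
  rcases open3_altF hi1 hC.nj B C L hD u0 u3 hU hor with h1 | ⟨h1, h2⟩ | ⟨h1, h2, h3⟩
  · exact Or.inl h1
  · refine Or.inr (Or.inl ⟨by linarith, ?_⟩)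
    rw [h2]
    norm_num
  · refine Or.inr (Or.inr ⟨by linarith, ?_, h3⟩)
    rw [h2]
    norm_num

end Pool.Agent.GaussPoset.EK
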