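import Pool.Agent.W_448kr_h10.KrE
import Pool.Agent.W_448st0_h96.SzB

/-!
MP_448cb3_co, G2, case B, STEP 0: THE LEAF `HOpen3Q` ([DL], four sites, both ends single, the doubled edge
at the low end of a late word).  Here `j = i + 1`.  helper10.
-/

namespace Pool.Agent.GaussPoset.EK

set_option linter.unusedSectionVars false

open Finset Win St Polynomial Wd Win.W4

universe u

variable {P : Type u} [Fintype P] [PartialOrder P] [DecidableEq P] {r i : ℕ}

/-- THE LEAF `HOpen3Q` OF STEP 0 -/
theorem hopen3q (P : Type u) [Fintype P] [PartialOrder P] [DecidableEq P] : HOpen3Q P := by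
  intro r i K psi t x c β lo hi e a h5 _ hC R B C _ L hD u0 u3 hU hor
  rcases open3_altF (by omega) hC.nj B C L hD u0 u3 hU hor with h1 | ⟨h1, h2⟩ | ⟨h1, h2, h3⟩
  · left
    have h4 : (0 : ℤ) ≤ 2 * v3 (i + 1) t + 4 * v3 (i + 1) t ^ 2 := by
      rcases lt_or_ge (v3 (i + 1) t) 0 with h | h <;> nlinarith
    unfold Qt
    linarith
  · left
    unfold Qt
    rw [h2]
    linarith
  · right
    obtain ⟨z, y, v, h4, h5, h6, h7⟩ := h3
    refine ⟨?_, z, y, v, h4, h5, h6 K psi R, h7⟩
    unfold Qt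
    rw [h2]
    linarith

end Pool.Agent.GaussPoset.EK
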